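import Mathlib

set_option autoImplicit false

open MeasureTheory Measure Metric Set Filter Topology Module

namespace Pool.Agent.Lib.MP_89b2fa_an

abbrev Pl := EuclideanSpace ℝ (Fin 2)

/-- Integration by parts on the plane, allowing one exceptional point (product model). -/
lemma ibp_aux {F F' : ℝ × ℝ → ℝ} {q : ℝ × ℝ}
    (hF : Integrable F) (hF' : Integrable F')
    (hd : ∀ x, x ≠ q → HasLineDerivAt ℝ F (F' x) x (0, 1)) :
    ∫ x, F' x = 0 := by
  have h1 : ∫ x, F' x = ∫ x, ∫ t, F' (x, t) := integral_prod _ hF'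
  rw [h1]
  apply integral_eq_zero_of_ae
  have hne : ∀ᵐ x : ℝ, x ≠ q.1 := by
    have : (volume : Measure ℝ) {q.1} = 0 := by simp
    exact compl_mem_ae_iff.2 this
  filter_upwards [hF.prod_right_ae, hF'.prod_right_ae, hne] with x h0 h0' hx
  apply integral_eq_zero_of_hasDerivAt_of_integrable (f := fun t => F (x, t)) ?_ h0' h0
  intro t
  have hq : (x, t) ≠ q := fun h => hx (by rw [← h])
  convert! (hd (x, t) hq).scomp_of_eq t ((hasDerivAt_id t).add (hasDerivAt_const t (-t)))
    (by simp) <;> simp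

/-- Integration by parts on the plane, allowing one exceptional point. -/
lemma ibp_point {F F' : Pl → ℝ} {p v : Pl}
    (hF : Integrable F) (hF' : Integrable F')
    (hd : ∀ x, x ≠ p → HasLineDerivAt ℝ F (F' x) x v) :
    ∫ x, F' x = 0 := by
  rcases eq_or_ne v 0 with rfl | hv
  · apply integral_eq_zero_of_ae
    have hne : ∀ᵐ x : Pl, x ≠ p := by
      have : (volume : Measure Pl) {p} = 0 := by simp
      exact compl_mem_ae_iff.2 this
    filter_upwards [hne] with x hx
    have h1 := (hd x hx).lineDeriv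
    rw [(hasLineDerivAt_zero (f := F) (x := x)).lineDeriv] at h1
    simp [← h1]
  obtain ⟨L, hL⟩ : ∃ L : Pl ≃L[ℝ] (ℝ × ℝ), L v = (0, 1) := by
    have : finrank ℝ (ℝ × ℝ) = finrank ℝ Pl := by simp
    have L₀ : Pl ≃L[ℝ] (ℝ × ℝ) := (ContinuousLinearEquiv.ofFinrankEq this).symm
    obtain ⟨M, hM⟩ : ∃ M : (ℝ × ℝ) ≃L[ℝ] (ℝ × ℝ), M (L₀ v) = (0, 1) := by
      apply SeparatingDual.exists_continuousLinearEquiv_apply_eq
      · simpa using hv
      · simp
    exact ⟨L₀.trans M, by simp [hM]⟩
  let ν : Measure (ℝ × ℝ) := Measure.map L volume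
  have L_emb : MeasurableEmbedding L := L.toHomeomorph.measurableEmbedding
  have A : (volume : Measure (ℝ × ℝ)) = (addHaarScalarFactor volume ν) • ν :=
    isAddLeftInvariant_eq_smul _ _
  have h0 : Integrable (fun x => F (L.symm x)) ν := by
    simpa [ν, L_emb.integrable_map_iff, Function.comp_def] using hF
  have h0' : Integrable (fun x => F' (L.symm x)) ν := by
    simpa [ν, L_emb.integrable_map_iff, Function.comp_def] using hF'
  have H0 : Integrable (fun x => F (L.symm x)) := by
    rw [A]; exact h0.smul_measure_nnreal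
  have H0' : Integrable (fun x => F' (L.symm x)) := by
    rw [A]; exact h0'.smul_measure_nnreal
  have key : ∫ x, F' (L.symm x) = 0 := by
    apply ibp_aux (q := L p) H0 H0'
    intro x hx
    have hx' : L.symm x ≠ p := fun h => hx (by rw [← h]; simp)
    have e : F = (F ∘ L.symm) ∘ (L : Pl →ₗ[ℝ] (ℝ × ℝ)) := by ext y; simp
    have h2 := hd (L.symm x) hx'
    rw [e] at h2
    convert! h2.of_comp using 1
    · simp
    · simp [← hL]
  have key2 : ∫ x, F' (L.symm x) ∂ν = 0 := by
    rw [isAddLeftInvariant_eq_smul ν volume]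
    simp [key]
  have e2 : (volume : Measure Pl) = Measure.map L.symm ν := by
    simp [ν, Measure.map_map L.symm.continuous.measurable L.continuous.measurable]
  have hL2 : IsClosedEmbedding L.symm := L.symm.toHomeomorph.isClosedEmbedding
  rw [e2, hL2.integral_map]
  exact key2

/-- derivative of a function of the positive part -/
lemma hasDerivAt_comp_max {F F' : ℝ → ℝ} (hF : ∀ t, HasDerivAt F (F' t) t) (h0 : F' 0 = 0)
    (t : ℝ) : HasDerivAt (fun s => F (max s 0)) (F' (max t 0)) t := by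
  rcases lt_trichotomy t 0 with ht | rfl | ht
  · rw [max_eq_right ht.le, h0]
    refine (hasDerivAt_const t (F 0)).congr_of_eventuallyEq ?_
    filter_upwards [Iio_mem_nhds ht] with s hs
    rw [max_eq_right (le_of_lt hs)]
  · rw [max_self, h0]
    have h1 : HasDerivWithinAt (fun s => F (max s 0)) 0 (Iic 0) 0 := by
      refine (hasDerivWithinAt_const (0 : ℝ) (Iic 0) (F 0)).congr ?_ (by simp)
      intro s hs
      rw [max_eq_right hs]
    have h2 : HasDerivWithinAt (fun s => F (max s 0)) 0 (Ici 0) 0 := by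
      have := (hF 0).hasDerivWithinAt (s := Ici 0)
      rw [h0] at this
      refine this.congr ?_ (by simp)
      intro s hs
      rw [max_eq_left hs]
    have := h1.union h2
    rwa [Iic_union_Ici, hasDerivWithinAt_univ] at this
  · rw [max_eq_left ht.le]
    refine (hF t).congr_of_eventuallyEq ?_
    filter_upwards [Ioi_mem_nhds ht] with s hs
    rw [max_eq_left (le_of_lt hs)]

/-- radial integrability in logarithmic coordinates, centred at the origin -/
lemma radial_zero {φ : ℝ → ℝ} {ρ : ℝ} (hρ : 0 < ρ) (hφ : IntegrableOn φ (Ioi 0)) :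
    IntegrableOn (fun y : Pl => φ (Real.log (ρ / ‖y‖)) / ‖y‖ ^ 2) (ball 0 ρ) ∧
    ∫ y : Pl in ball 0 ρ, φ (Real.log (ρ / ‖y‖)) / ‖y‖ ^ 2 = 2 * Real.pi * ∫ L in Ioi 0, φ L := by
  have himg : (fun L : ℝ => ρ * Real.exp (-L)) '' Ioi 0 = Ioo 0 ρ := by
    ext r
    constructor
    · rintro ⟨L, hL, rfl⟩
      refine ⟨by positivity, ?_⟩
      have : Real.exp (-L) < 1 := Real.exp_lt_one_iff.2 (by simpa using hL)
      nlinarith
    · rintro ⟨h1, h2⟩
      refine ⟨Real.log (ρ / r), Real.log_pos ((one_lt_div h1).2 h2), ?_⟩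
      simp only
      rw [Real.exp_neg, Real.exp_log (by positivity)]
      field_simp
  have hder : ∀ L ∈ Ioi (0 : ℝ), HasDerivWithinAt (fun L : ℝ => ρ * Real.exp (-L))
      (-(ρ * Real.exp (-L))) (Ioi 0) L := by
    intro L _
    have h1 : HasDerivAt (fun L : ℝ => ρ * Real.exp (-L)) (ρ * (Real.exp (-L) * (-1))) L :=
      (hasDerivAt_neg L).exp.const_mul ρ
    have h2 : ρ * (Real.exp (-L) * (-1)) = -(ρ * Real.exp (-L)) := by ring
    rw [h2] at h1
    exact h1.hasDerivWithinAt
  have hinj : InjOn (fun L : ℝ => ρ * Real.exp (-L)) (Ioi 0) := by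
    intro a _ b _ h
    have h' : Real.exp (-a) = Real.exp (-b) := mul_left_cancel₀ hρ.ne' h
    have := Real.exp_injective h'
    linarith
  have hfun : ∀ L : ℝ, |(-(ρ * Real.exp (-L)))| • ((ρ * Real.exp (-L)) ^ (2 - 1) •
      (φ (Real.log (ρ / (ρ * Real.exp (-L)))) / (ρ * Real.exp (-L)) ^ 2)) = φ L := by
    intro L
    have hpos : 0 < ρ * Real.exp (-L) := by positivity
    have : ρ / (ρ * Real.exp (-L)) = Real.exp L := by
      rw [Real.exp_neg]; field_simp
    rw [this, Real.log_exp, abs_neg, abs_of_pos hpos, smul_eq_mul, smul_eq_mul]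
    norm_num
    field_simp
  have hfr : finrank ℝ Pl = 2 := by simp
  constructor
  · rw [integrableOn_fun_norm_addHaar (volume : Measure Pl)
      (f := fun r => φ (Real.log (ρ / r)) / r ^ 2), hfr, ← himg,
      integrableOn_image_iff_integrableOn_abs_deriv_smul measurableSet_Ioi hder hinj]
    simp only [hfun]
    exact hφ
  · have e1 : ∫ y : Pl in ball 0 ρ, φ (Real.log (ρ / ‖y‖)) / ‖y‖ ^ 2 =
        ∫ y : Pl, (Iio ρ).indicator (fun r => φ (Real.log (ρ / r)) / r ^ 2) ‖y‖ := by
      rw [← integral_indicator measurableSet_ball]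
      congr 1
      ext y
      simp [indicator]
    rw [e1, integral_fun_norm_addHaar (volume : Measure Pl), hfr]
    have e2 : ∫ y in Ioi (0 : ℝ), y ^ (2 - 1) •
        (Iio ρ).indicator (fun r => φ (Real.log (ρ / r)) / r ^ 2) y =
        ∫ y in Ioo (0 : ℝ) ρ, y ^ (2 - 1) • (φ (Real.log (ρ / y)) / y ^ 2) := by
      have : Ioo (0 : ℝ) ρ = Ioi 0 ∩ Iio ρ := by ext; simp
      rw [this, ← setIntegral_indicator measurableSet_Iio]
      congr 1
      ext y
      by_cases hy : y < ρ <;> simp [indicator, hy]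
    rw [e2, ← himg, integral_image_eq_integral_abs_deriv_smul measurableSet_Ioi hder hinj]
    simp only [hfun]
    have : (volume : Measure Pl).real (ball 0 1) = Real.pi := by
      rw [Measure.real, EuclideanSpace.volume_ball_fin_two]
      simp [Real.pi_pos.le]
    rw [this]
    simp only [nsmul_eq_mul, smul_eq_mul]
    push_cast
    ring

/-- radial integrability in logarithmic coordinates -/
lemma radial {φ : ℝ → ℝ} {ρ : ℝ} (hρ : 0 < ρ) (hφ : IntegrableOn φ (Ioi 0)) (p : Pl) :
    IntegrableOn (fun x : Pl => φ (Real.log (ρ / ‖x - p‖)) / ‖x - p‖ ^ 2) (ball p ρ) ∧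
    ∫ x : Pl in ball p ρ, φ (Real.log (ρ / ‖x - p‖)) / ‖x - p‖ ^ 2
      = 2 * Real.pi * ∫ L in Ioi 0, φ L := by
  obtain ⟨h1, h2⟩ := radial_zero hρ hφ
  have mp : MeasurePreserving (fun x : Pl => x - p) volume volume := measurePreserving_sub_right _ p
  have me : MeasurableEmbedding (fun x : Pl => x - p) :=
    (Homeomorph.subRight p).measurableEmbedding
  have hpre : (fun x : Pl => x - p) ⁻¹' ball 0 ρ = ball p ρ := by
    ext x; simp [mem_ball, dist_eq_norm]
  constructor
  · have := (mp.integrableOn_comp_preimage me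
      (f := fun y : Pl => φ (Real.log (ρ / ‖y‖)) / ‖y‖ ^ 2) (s := ball 0 ρ)).2 h1
    rw [hpre] at this
    exact this
  · rw [← h2, ← hpre]
    exact mp.setIntegral_preimage_emb me
      (fun y : Pl => φ (Real.log (ρ / ‖y‖)) / ‖y‖ ^ 2) (ball 0 ρ)

end Pool.Agent.Lib.MP_89b2fa_an
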