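import Pool.Agent.Lib.MP_89b2fa_an.Profile

set_option autoImplicit false

open MeasureTheory Measure Metric Set Filter Topology Module

namespace Pool.Agent.Lib.MP_89b2fa_an

/-- the logarithmic radial coordinate -/
noncomputable def ell (ρ : ℝ) (p x : Pl) : ℝ := Real.log (ρ / ‖x - p‖)

/-- the i-th unit vector -/
noncomputable abbrev ee (i : Fin 2) : Pl := EuclideanSpace.single i 1

lemma measurable_ell (ρ : ℝ) (p : Pl) : Measurable (ell ρ p) := by
  unfold ell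
  exact Real.measurable_log.comp (by fun_prop)

lemma hasDerivAt_coord (x p : Pl) (i : Fin 2) :
    HasDerivAt (fun t : ℝ => (x + t • ee i - p) i) 1 0 := by
  have : (fun t : ℝ => (x + t • ee i - p) i) = fun t => (x - p) i + t := by
    ext t; simp; ring
  rw [this]
  exact (hasDerivAt_id (0 : ℝ)).const_add _

lemma hasDerivAt_normsq (x p : Pl) (i : Fin 2) :
    HasDerivAt (fun t : ℝ => ‖x + t • ee i - p‖ ^ 2) (2 * (x - p) i) 0 := by
  have h0 : HasDerivAt (fun t : ℝ => x + t • ee i - p) (ee i) 0 := by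
    simpa using (((hasDerivAt_id (0 : ℝ)).smul_const (ee i)).const_add x).sub_const p
  have h1 := h0.norm_sq
  convert h1 using 1
  simp [EuclideanSpace.inner_single_right]

lemma hasDerivAt_ell {ρ : ℝ} (hρ : 0 < ρ) {x p : Pl} (hx : x ≠ p) (i : Fin 2) :
    HasDerivAt (fun t : ℝ => ell ρ p (x + t • ee i)) (-((x - p) i / ‖x - p‖ ^ 2)) 0 := by
  have hr : 0 < ‖x - p‖ := norm_pos_iff.2 (sub_ne_zero.2 hx)
  have hq := hasDerivAt_normsq x p i
  have hq0 : ‖x + (0 : ℝ) • ee i - p‖ ^ 2 ≠ 0 := by simpa using hr.ne'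
  have h1 := ((hq.log hq0).div_const 2).const_sub (Real.log ρ)
  have e : -(2 * (x - p) i / ‖x + (0 : ℝ) • ee i - p‖ ^ 2 / 2) = -((x - p) i / ‖x - p‖ ^ 2) := by
    simp only [zero_smul, add_zero]
    field_simp
  rw [e] at h1
  refine h1.congr_of_eventuallyEq ?_
  have hc : ContinuousAt (fun t : ℝ => ‖x + t • ee i - p‖) 0 := by fun_prop
  have hne : ∀ᶠ t in 𝓝 (0 : ℝ), ‖x + t • ee i - p‖ ≠ 0 :=
    hc.eventually_ne (by simpa using hr.ne')
  filter_upwards [hne] with t ht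
  unfold ell
  rw [Real.log_div hρ.ne' ht, Real.log_pow]
  push_cast
  ring

lemma norm_sq_eq (y : Pl) : ‖y‖ ^ 2 = y 0 ^ 2 + y 1 ^ 2 := by
  rw [EuclideanSpace.norm_sq_eq]
  simp [Fin.sum_univ_two]

lemma coord_sq_le (y : Pl) (i : Fin 2) : y i ^ 2 ≤ ‖y‖ ^ 2 := by
  have := PiLp.norm_apply_le y i
  rw [Real.norm_eq_abs] at this
  rw [← sq_abs]
  exact pow_le_pow_left₀ (abs_nonneg _) this 2

lemma measurable_coord {W : Pl → Pl} (hW : Measurable W) (i : Fin 2) :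
    Measurable fun x => W x i :=
  (EuclideanSpace.proj (𝕜 := ℝ) i).continuous.measurable.comp hW

lemma integrable_mul_test {a m : Pl → ℝ} {s : Set Pl} (ha : IntegrableOn a s)
    (hm : Continuous m) (hc : HasCompactSupport m) (hs : tsupport m ⊆ s) :
    Integrable (fun x => a x * m x) := by
  obtain ⟨C, hC⟩ := hm.bounded_above_of_compact_support hc
  have h1 : IntegrableOn (fun x => a x * m x) s :=
    Integrable.mul_bdd ha hm.aestronglyMeasurable (ae_of_all _ hC)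
  refine h1.integrable_of_forall_notMem_eq_zero ?_
  intro x hx
  rw [image_eq_zero_of_notMem_tsupport (fun h => hx (hs h)), mul_zero]

section bump

variable (ε a ρ : ℝ) (p : Pl)

noncomputable def bw (x : Pl) : ℝ := gg ε a (ell ρ p x)

noncomputable def bPhi (x : Pl) : ℝ := ph ε a (ell ρ p x) / ‖x - p‖ ^ 2

noncomputable def bW (x : Pl) : Pl := (-bPhi ε a ρ p x) • (x - p)

noncomputable def bf (x : Pl) : ℝ := ps ε a (ell ρ p x) / ‖x - p‖ ^ 2

noncomputable def bD (i : Fin 2) (x : Pl) : ℝ :=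
  bf ε a ρ p x * ((x - p) i ^ 2 / ‖x - p‖ ^ 2)
    - bPhi ε a ρ p x * (1 - 2 * ((x - p) i ^ 2 / ‖x - p‖ ^ 2))

lemma measurable_bw : Measurable (bw ε a ρ p) :=
  (continuous_gg ε a).measurable.comp (measurable_ell ρ p)

lemma measurable_bPhi : Measurable (bPhi ε a ρ p) :=
  ((continuous_ph ε a).measurable.comp (measurable_ell ρ p)).div (by fun_prop)

lemma measurable_bW : Measurable (bW ε a ρ p) := by
  have := measurable_bPhi ε a ρ p
  unfold bW
  fun_prop

lemma measurable_bf : Measurable (bf ε a ρ p) :=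
  ((continuous_ps ε a).measurable.comp (measurable_ell ρ p)).div (by fun_prop)

lemma measurable_bD (i : Fin 2) : Measurable (bD ε a ρ p i) := by
  have h1 := measurable_bPhi ε a ρ p
  have h2 := measurable_bf ε a ρ p
  unfold bD
  fun_prop

variable {ε a ρ p}

lemma bPhi_nonneg (hε : 0 < ε) (x : Pl) : 0 ≤ bPhi ε a ρ p x :=
  div_nonneg (ph_pos hε _ _).le (by positivity)

lemma norm_bW (hε : 0 < ε) (x : Pl) : ‖bW ε a ρ p x‖ = ph ε a (ell ρ p x) / ‖x - p‖ := by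
  unfold bW
  rw [norm_smul, norm_neg, Real.norm_of_nonneg (bPhi_nonneg hε x)]
  unfold bPhi
  rcases eq_or_ne ‖x - p‖ 0 with h | h
  · simp [h]
  · field_simp

lemma abs_bf_le (hε : 0 < ε) (x : Pl) : |bf ε a ρ p x| ≤ ε * bPhi ε a ρ p x := by
  unfold bf bPhi
  rw [abs_div, abs_of_nonneg (by positivity : 0 ≤ ‖x - p‖ ^ 2), ← mul_div_assoc]
  exact div_le_div_of_nonneg_right (abs_ps_le hε _ _) (by positivity)

lemma abs_bD_le (hε : 0 < ε) (hε1 : ε ≤ 1) (i : Fin 2) (x : Pl) :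
    |bD ε a ρ p i x| ≤ 2 * bPhi ε a ρ p x := by
  unfold bD
  have h0 : 0 ≤ (x - p) i ^ 2 / ‖x - p‖ ^ 2 := by positivity
  have h1 : (x - p) i ^ 2 / ‖x - p‖ ^ 2 ≤ 1 :=
    div_le_one_of_le₀ (coord_sq_le _ i) (by positivity)
  set s := (x - p) i ^ 2 / ‖x - p‖ ^ 2
  have h2 := abs_bf_le (a := a) (ρ := ρ) (p := p) hε x
  have h3 := bPhi_nonneg (a := a) (ρ := ρ) (p := p) hε x
  have h4 : |bf ε a ρ p x * s| ≤ bPhi ε a ρ p x := by
    rw [abs_mul, abs_of_nonneg h0]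
    have := abs_nonneg (bf ε a ρ p x)
    nlinarith
  have h5 : |bPhi ε a ρ p x * (1 - 2 * s)| ≤ bPhi ε a ρ p x := by
    rw [abs_mul, abs_of_nonneg h3]
    have : |1 - 2 * s| ≤ 1 := abs_le.2 ⟨by linarith, by linarith⟩
    nlinarith
  have := abs_sub (bf ε a ρ p x * s) (bPhi ε a ρ p x * (1 - 2 * s))
  linarith

lemma bD_sum (x : Pl) : bD ε a ρ p 0 x + bD ε a ρ p 1 x = bf ε a ρ p x := by
  rcases eq_or_ne ‖x - p‖ 0 with h | h
  · unfold bD bf bPhi
    simp [h]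
  · unfold bD
    have h1 : (x - p) 0 ^ 2 / ‖x - p‖ ^ 2 + (x - p) 1 ^ 2 / ‖x - p‖ ^ 2 = 1 := by
      rw [← add_div, ← norm_sq_eq]
      exact div_self (pow_ne_zero 2 h)
    have h2 : (x - p) 1 ^ 2 / ‖x - p‖ ^ 2 = 1 - (x - p) 0 ^ 2 / ‖x - p‖ ^ 2 := by linarith
    rw [h2]
    ring

lemma hasDerivAt_bw (hρ : 0 < ρ) {x : Pl} (hx : x ≠ p) (i : Fin 2) :
    HasDerivAt (fun t : ℝ => bw ε a ρ p (x + t • ee i)) (bW ε a ρ p x i) 0 := by
  have h1 := hasDerivAt_ell hρ hx i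
  have h2 := (hasDerivAt_gg ε a (ell ρ p (x + (0 : ℝ) • ee i))).comp (0 : ℝ) h1
  have e : ph ε a (ell ρ p (x + (0 : ℝ) • ee i)) * -((x - p) i / ‖x - p‖ ^ 2)
      = bW ε a ρ p x i := by
    unfold bW bPhi
    simp only [zero_smul, add_zero, PiLp.smul_apply, smul_eq_mul]
    ring
  rw [e] at h2
  exact h2

lemma hasDerivAt_bW (hρ : 0 < ρ) {x : Pl} (hx : x ≠ p) (i : Fin 2) :
    HasDerivAt (fun t : ℝ => bW ε a ρ p (x + t • ee i) i) (bD ε a ρ p i x) 0 := by
  have hr : 0 < ‖x - p‖ := norm_pos_iff.2 (sub_ne_zero.2 hx)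
  have h1 := hasDerivAt_ell hρ hx i
  have h2 := (hasDerivAt_ph ε a (ell ρ p (x + (0 : ℝ) • ee i))).comp (0 : ℝ) h1
  have hq := hasDerivAt_normsq x p i
  have hq0 : ‖x + (0 : ℝ) • ee i - p‖ ^ 2 ≠ 0 := by simpa using hr.ne'
  have h3 := ((h2.fun_div hq hq0).fun_neg).fun_mul (hasDerivAt_coord x p i)
  have e1 : (fun t : ℝ => bW ε a ρ p (x + t • ee i) i) = fun t : ℝ =>
      -((ph ε a ∘ fun t : ℝ => ell ρ p (x + t • ee i)) t / ‖x + t • ee i - p‖ ^ 2)
        * (x + t • ee i - p) i := by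
    ext t
    unfold bW bPhi
    simp only [PiLp.smul_apply, smul_eq_mul, Function.comp]
  rw [e1]
  refine h3.congr_deriv ?_
  unfold bD bf bPhi
  simp only [zero_smul, add_zero, Function.comp]
  field_simp
  ring

lemma bPhi_integrable (hε : 0 < ε) (hρ : 0 < ρ) : IntegrableOn (bPhi ε a ρ p) (ball p ρ) :=
  (radial hρ (ph_integrable hε a) p).1

lemma bPhi_integral_le (hε : 0 < ε) (ha : 0 ≤ a) (hρ : 0 < ρ) :
    ∫ x in ball p ρ, bPhi ε a ρ p x ≤ 8 * (ε * a + 2) := by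
  have h1 := (radial hρ (ph_integrable hε a) p).2
  have h2 := ph_integral_le hε ha
  have h3 : 0 ≤ ∫ L in Ioi 0, ph ε a L := integral_nonneg fun L => (ph_pos hε a L).le
  have h4 := Real.pi_le_four
  have : ∫ x in ball p ρ, bPhi ε a ρ p x = 2 * Real.pi * ∫ L in Ioi 0, ph ε a L := h1
  rw [this]
  nlinarith

lemma norm_bW_sq_le (hε : 0 < ε) (x : Pl) : ‖bW ε a ρ p x‖ ^ 2 ≤ ε * bPhi ε a ρ p x := by
  rw [norm_bW hε, div_pow]
  unfold bPhi
  rw [← mul_div_assoc]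
  refine div_le_div_of_nonneg_right ?_ (by positivity)
  have h1 := ph_le hε a (ell ρ p x)
  have h2 := ph_pos hε a (ell ρ p x)
  nlinarith

lemma bf_sq_le (hε : 0 < ε) (x : Pl) :
    bf ε a ρ p x ^ 2 ≤ 4 * ε * bPhi ε a ρ p x * ‖bW ε a ρ p x‖ ^ 2 := by
  rw [norm_bW hε]
  unfold bf bPhi
  have h1 := ps_sq_le hε a (ell ρ p x)
  have e : 4 * ε * (ph ε a (ell ρ p x) / ‖x - p‖ ^ 2) * (ph ε a (ell ρ p x) / ‖x - p‖) ^ 2
      = 4 * ε * ph ε a (ell ρ p x) ^ 3 / (‖x - p‖ ^ 2) ^ 2 := by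
    ring
  rw [e, div_pow]
  exact div_le_div_of_nonneg_right h1 (by positivity)

lemma ell_nonneg {x : Pl} (hx : x ∈ ball p ρ) : 0 ≤ ell ρ p x := by
  unfold ell
  rw [mem_ball, dist_eq_norm] at hx
  rcases eq_or_lt_of_le (norm_nonneg (x - p)) with h | h
  · simp [← h]
  · exact Real.log_nonneg ((one_le_div h).2 hx.le)

lemma bw_integrable (hε : 0 < ε) (ha : 0 ≤ a) : IntegrableOn (bw ε a ρ p) (ball p ρ) := by
  refine Measure.integrableOn_of_bounded (M := ε * a + 2) measure_ball_lt_top.ne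
    (measurable_bw ε a ρ p).aestronglyMeasurable ?_
  rw [ae_restrict_iff' measurableSet_ball]
  refine ae_of_all _ fun x hx => ?_
  obtain ⟨h1, h2⟩ := gg_bounds hε ha (ell_nonneg hx)
  unfold bw
  rw [Real.norm_of_nonneg h1]
  exact h2

lemma bW_integrable (hε : 0 < ε) (hρ : 0 < ρ) (i : Fin 2) :
    IntegrableOn (fun x => bW ε a ρ p x i) (ball p ρ) := by
  have h1 : IntegrableOn (fun x => 1 + ε * bPhi ε a ρ p x) (ball p ρ) :=
    (integrableOn_const measure_ball_lt_top.ne).add ((bPhi_integrable hε hρ).const_mul ε)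
  refine h1.mono' ?_ (ae_of_all _ fun x => ?_)
  · exact (measurable_coord (measurable_bW ε a ρ p) i).aestronglyMeasurable
  · have h2 := PiLp.norm_apply_le (bW ε a ρ p x) i
    have h3 := norm_bW_sq_le (a := a) (ρ := ρ) (p := p) hε x
    nlinarith [sq_nonneg (‖bW ε a ρ p x‖ - 1), norm_nonneg (bW ε a ρ p x)]

lemma bD_integrable (hε : 0 < ε) (hε1 : ε ≤ 1) (hρ : 0 < ρ) (i : Fin 2) :
    IntegrableOn (bD ε a ρ p i) (ball p ρ) := by
  refine ((bPhi_integrable (a := a) (p := p) hε hρ).const_mul 2).mono'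
    (measurable_bD ε a ρ p i).aestronglyMeasurable (ae_of_all _ fun x => ?_)
  exact abs_bD_le hε hε1 i x

lemma ibp_test {F F' h : Pl → ℝ} {s : Set Pl} {i : Fin 2} (hF : IntegrableOn F s)
    (hF' : IntegrableOn F' s)
    (hd : ∀ x, x ≠ p → HasDerivAt (fun t : ℝ => F (x + t • ee i)) (F' x) 0)
    (hh : ContDiff ℝ 1 h) (hc : HasCompactSupport h) (hs : tsupport h ⊆ s) :
    ∫ x, F x * fderiv ℝ h x (ee i) = - ∫ x, F' x * h x := by
  have hcd : Continuous fun x => fderiv ℝ h x (ee i) :=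
    (hh.continuous_fderiv one_ne_zero).clm_apply continuous_const
  have i1 := integrable_mul_test hF hh.continuous hc hs
  have i2 := integrable_mul_test hF' hh.continuous hc hs
  have i3 := integrable_mul_test hF hcd (hc.fderiv_apply (𝕜 := ℝ) (ee i))
    ((tsupport_fderiv_apply_subset ℝ (ee i)).trans hs)
  have key : ∫ x, (F' x * h x + F x * fderiv ℝ h x (ee i)) = 0 := by
    refine ibp_point (p := p) (v := ee i) i1 (i2.add i3) ?_
    intro x hx
    have h1 : HasDerivAt (fun t : ℝ => h (x + t • ee i)) (fderiv ℝ h x (ee i)) 0 :=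
      ((hh.differentiable one_ne_zero) x).hasFDerivAt.hasLineDerivAt (ee i)
    have h2 := (hd x hx).fun_mul h1
    simp only [zero_smul, add_zero] at h2
    exact h2
  rw [integral_add i2 i3] at key
  linarith

end bump

/-- The single bump. -/
theorem exists_bump (p : Pl) {ρ d η : ℝ} (hρ : 0 < ρ) (hd : 0 < d) (hη : 0 < η) :
    ∃ (w : Pl → ℝ) (W : Pl → Pl) (f A : Pl → ℝ),
      Measurable w ∧ Measurable W ∧ Measurable f ∧
      (∀ x, 0 ≤ A x) ∧ IntegrableOn A (ball p ρ) ∧ ∫ x in ball p ρ, A x ≤ η ∧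
      (∀ x, ‖W x‖ ^ 2 ≤ A x) ∧ (∀ x, f x ^ 2 ≤ A x * ‖W x‖ ^ 2) ∧
      (∀ x, f x ≠ 0 → 2 ≤ ‖W x‖) ∧
      (∀ x ∈ ball p ρ, ‖w x‖ ≤ 2 * ρ + 2) ∧
      (∀ x ∈ ball p ρ, x ∉ ball p d → ‖w x‖ ≤ η ∧ ‖W x‖ ≤ η ∧ f x = 0) ∧
      (∃ r, 0 < r ∧ ∀ x ∈ ball p r, x ≠ p → 3 / 4 ≤ w x) ∧
      (∀ h : Pl → ℝ, ContDiff ℝ 1 h → HasCompactSupport h → tsupport h ⊆ ball p ρ →
        (∀ i, ∫ x, w x * fderiv ℝ h x (ee i) = - ∫ x, W x i * h x) ∧
        ∑ i, ∫ x, W x i * fderiv ℝ h x (ee i) = - ∫ x, f x * h x) := by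
  obtain ⟨ε, hε, h1, h2, h3, h4, h5, h6⟩ : ∃ ε : ℝ, 0 < ε ∧ ε ≤ 1 / 2 ∧ ε ≤ d ∧ ε ≤ ρ ∧
      ε ≤ η * d / ρ ∧ ε ≤ η * d ∧ ε ≤ η / (32 * (2 * ρ + 2)) := by
    refine ⟨min (1 / 2) (min d (min ρ (min (η * d / ρ) (min (η * d)
      (η / (32 * (2 * ρ + 2))))))), by positivity, ?_, ?_, ?_, ?_, ?_, ?_⟩ <;> simp
  set a := Real.log (2 * ρ / ε) with ha_def
  have hae : Real.exp a = 2 * ρ / ε := Real.exp_log (by positivity)
  have ha : 0 ≤ a := Real.log_nonneg ((one_le_div hε).2 (by linarith))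
  have hεa : ε * a ≤ 2 * ρ := by
    have : a ≤ 2 * ρ / ε := (Real.log_le_sub_one_of_pos (by positivity)).trans (by linarith)
    rw [le_div_iff₀ hε] at this
    linarith
  have hfar : ∀ x : Pl, ε / 2 ≤ ‖x - p‖ → ell ρ p x ≤ a := by
    intro x hx
    have hr : 0 < ‖x - p‖ := lt_of_lt_of_le (by positivity) hx
    unfold ell
    apply Real.log_le_log (by positivity)
    rw [div_le_div_iff₀ hr hε]
    nlinarith
  refine ⟨bw ε a ρ p, bW ε a ρ p, bf ε a ρ p, fun x => 4 * ε * bPhi ε a ρ p x,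
    measurable_bw _ _ _ _, measurable_bW _ _ _ _, measurable_bf _ _ _ _, ?_, ?_, ?_, ?_, ?_, ?_,
    ?_, ?_, ?_, ?_⟩
  · intro x
    have := bPhi_nonneg (a := a) (ρ := ρ) (p := p) hε x
    positivity
  · exact (bPhi_integrable hε hρ).const_mul _
  · rw [integral_const_mul]
    have h7 := bPhi_integral_le (p := p) hε ha hρ
    rw [le_div_iff₀ (by positivity)] at h6
    nlinarith
  · intro x
    have h7 := norm_bW_sq_le (a := a) (ρ := ρ) (p := p) hε x
    have h8 := bPhi_nonneg (a := a) (ρ := ρ) (p := p) hε x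
    have : 0 ≤ ε * bPhi ε a ρ p x := by positivity
    linarith
  · exact fun x => bf_sq_le hε x
  · intro x hx
    have hr : ‖x - p‖ ≠ 0 := by
      intro h
      apply hx
      unfold bf
      simp [h]
    have hr' : 0 < ‖x - p‖ := lt_of_le_of_ne (norm_nonneg _) hr.symm
    have hL : a ≤ ell ρ p x := by
      by_contra hcon
      apply hx
      unfold bf
      rw [ps_of_le hε (not_le.1 hcon).le, zero_div]
    have h7 := ph_exp_ge hε h1 hL
    have h8 : Real.exp (ell ρ p x) = ρ / ‖x - p‖ := Real.exp_log (by positivity)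
    rw [hae, h8] at h7
    rw [norm_bW hε, le_div_iff₀ hr']
    have e1 : ε * (2 * ρ / ε) = 2 * ρ := by field_simp
    rw [e1, ← mul_div_assoc, le_div_iff₀ hr'] at h7
    nlinarith
  · intro x hx
    obtain ⟨h7, h8⟩ := gg_bounds hε ha (ell_nonneg hx)
    unfold bw
    rw [Real.norm_of_nonneg h7]
    linarith
  · intro x hx hxd
    have hr : d ≤ ‖x - p‖ := by
      rw [mem_ball, dist_eq_norm, not_lt] at hxd
      exact hxd
    have hr' : 0 < ‖x - p‖ := lt_of_lt_of_le hd hr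
    have hL := hfar x (by linarith)
    have hL0 := ell_nonneg hx
    refine ⟨?_, ?_, ?_⟩
    · unfold bw
      rw [gg_of_le hε hL, Real.norm_of_nonneg (by positivity)]
      have h7 : ell ρ p x ≤ ρ / d := by
        unfold ell
        refine (Real.log_le_sub_one_of_pos (by positivity)).trans ?_
        have : ρ / ‖x - p‖ ≤ ρ / d := div_le_div_of_nonneg_left hρ.le hd hr
        linarith
      rw [le_div_iff₀ hρ] at h4
      rw [le_div_iff₀ hd] at h7
      have : ε * ell ρ p x * d ≤ η * d := by nlinarith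
      exact le_of_mul_le_mul_right this hd
    · rw [norm_bW hε, ph_of_le hε hL, div_le_iff₀ hr']
      nlinarith
    · unfold bf
      rw [ps_of_le hε hL, zero_div]
  · refine ⟨ρ * Real.exp (-(a + 1 / ε)), by positivity, fun x hx hxp => ?_⟩
    apply gg_large hε ha
    have hr' : 0 < ‖x - p‖ := norm_pos_iff.2 (sub_ne_zero.2 hxp)
    rw [mem_ball, dist_eq_norm] at hx
    unfold ell
    rw [Real.le_log_iff_exp_le (by positivity), le_div_iff₀ hr']
    have e1 : Real.exp (a + 1 / ε) * (ρ * Real.exp (-(a + 1 / ε))) = ρ := by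
      rw [Real.exp_neg]; field_simp
    have := Real.exp_pos (a + 1 / ε)
    nlinarith
  · intro h hh hc hs
    constructor
    · intro i
      exact ibp_test (p := p) (bw_integrable hε ha) (bW_integrable hε hρ i)
        (fun x hx => hasDerivAt_bw hρ hx i) hh hc hs
    · have hε1 : ε ≤ 1 := by linarith
      have k0 := ibp_test (p := p) (bW_integrable (a := a) hε hρ 0) (bD_integrable hε hε1 hρ 0)
        (fun x hx => hasDerivAt_bW hρ hx 0) hh hc hs
      have k1 := ibp_test (p := p) (bW_integrable (a := a) hε hρ 1) (bD_integrable hε hε1 hρ 1)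
        (fun x hx => hasDerivAt_bW hρ hx 1) hh hc hs
      have i0 := integrable_mul_test (bD_integrable (a := a) (p := p) hε hε1 hρ 0)
        hh.continuous hc hs
      have i1 := integrable_mul_test (bD_integrable (a := a) (p := p) hε hε1 hρ 1)
        hh.continuous hc hs
      rw [Fin.sum_univ_two, k0, k1, ← neg_add, ← integral_add i0 i1]
      congr 2
      ext x
      rw [← add_mul, bD_sum]

end Pool.Agent.Lib.MP_89b2fa_an
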