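import Pool.Agent.Lib.MP_89b2fa_an.Sum

set_option autoImplicit false

open MeasureTheory Measure Metric Set Filter Topology Module
open scoped InnerProductSpace ENNReal ContDiff

namespace Pool.Agent.Lib.MP_89b2fa_an

lemma setIntegral_test {R : ℝ} {a m h : Pl → ℝ} (hs : tsupport h ⊆ ball (0 : Pl) R)
    (hm : tsupport m ⊆ tsupport h) :
    ∫ x in ball (0 : Pl) R, a x * m x = ∫ x, a x * m x := by
  apply setIntegral_eq_integral_of_forall_compl_eq_zero
  intro x hx
  rw [image_eq_zero_of_notMem_tsupport (fun h' => hx (hs (hm h'))), mul_zero]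

lemma inner_gradient_eq (h : Pl → ℝ) (x y : Pl) :
    ⟪y, gradient h x⟫_ℝ = y 0 * fderiv ℝ h x (ee 0) + y 1 * fderiv ℝ h x (ee 1) := by
  rw [inner_gradient_right]
  have e : y = y 0 • ee 0 + y 1 • ee 1 := by
    ext i
    fin_cases i <;> simp
  conv_lhs => rw [e]
  simp

theorem main {R : ℝ} (hR : 0 < R) :
    ∃ (b : Pl → Pl) (u : Pl → ℝ) (G : Pl → Pl),
      Measurable b ∧ MemLp b 2 (volume.restrict (ball 0 R)) ∧
      MemLp u 2 (volume.restrict (ball 0 R)) ∧
      MemLp G 2 (volume.restrict (ball 0 R)) ∧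
      (∀ h : Pl → ℝ, ContDiff ℝ ∞ h → HasCompactSupport h → tsupport h ⊆ ball 0 R →
        ∀ i : Fin 2, ∫ x in ball 0 R, u x * fderiv ℝ h x (EuclideanSpace.single i 1)
          = - ∫ x in ball 0 R, G x i * h x) ∧
      MemLp u ⊤ (volume.restrict (ball 0 R)) ∧
      (∀ h : Pl → ℝ, ContDiff ℝ ∞ h → HasCompactSupport h → tsupport h ⊆ ball 0 R →
        ∫ x in ball 0 R, ⟪G x, gradient h x + h x • b x⟫_ℝ = 0) ∧
      ¬ ∃ v : Pl → ℝ, ContinuousOn v (ball 0 R) ∧ u =ᵐ[volume.restrict (ball 0 R)] v := by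
  have hrad : ∀ k, 0 < rad R k := fun k => by unfold rad; positivity
  have hex := fun k => exists_bump (ctr R k) (ρ := 2 * R) (d := rad R k) (η := eta k)
    (by positivity) (hrad k) (eta_pos k)
  choose w W f A mw mW mf hA0 hAi hAle hWA hfA hfW hwb hout hbig hibp using hex
  set μ : Measure Pl := volume.restrict (ball 0 R) with hμ
  have : IsFiniteMeasure μ := ⟨by
    rw [hμ, Measure.restrict_apply_univ]; exact measure_ball_lt_top⟩
  have hsub := ball_subset hR
  have hAi' : ∀ k, Integrable (A k) μ := fun k => (hAi k).mono_set (hsub k)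
  have hAle' : ∀ k, ∫ x, A k x ∂μ ≤ eta k := fun k =>
    (setIntegral_mono_set (hAi k) (ae_of_all _ (hA0 k)) (hsub k).eventuallyLE).trans (hAle k)
  have hse := hasSum_eta.summable
  have hte : ∑' k, eta k = 1 / 4 := hasSum_eta.tsum_eq
  have he0 : ∀ k, 0 ≤ eta k := fun k => (eta_pos k).le
  have hae : ∀ᵐ x ∂μ, x ∈ ball (0 : Pl) R := ae_restrict_mem measurableSet_ball
  let u : Pl → ℝ := fun x => ∑' k, w k x
  let G : Pl → Pl := fun x => ∑' k, W k x
  let F : Pl → ℝ := fun x => ∑' k, f k x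
  let b : Pl → Pl := fun x => (F x / ‖G x‖ ^ 2) • G x
  have mu : Measurable u := Measurable.tsum mw
  have mG : Measurable G := Measurable.tsum mW
  have mF : Measurable F := Measurable.tsum mf
  have mb : Measurable b := (mF.div (mG.norm.pow_const 2)).smul mG
  -- pointwise structure
  have key : ∀ x ∈ ball (0 : Pl) R, ∃ k,
      (Summable (fun j => ‖w j x‖) ∧ ∑' j, ‖w j x‖ ≤ ‖w k x‖ + 1 / 4 ∧ ‖u x - w k x‖ ≤ 1 / 4) ∧
      (Summable (fun j => ‖W j x‖) ∧ ‖G x - W k x‖ ≤ 1 / 4) ∧
      (∀ i, Summable (fun j => ‖W j x i‖) ∧ ∑' j, ‖W j x i‖ ≤ ‖W k x i‖ + 1 / 4) ∧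
      (Summable (fun j => ‖f j x‖) ∧ ∑' j, ‖f j x‖ ≤ ‖f k x‖ + 1 / 4 ∧ F x = f k x) := by
    intro x hx
    obtain ⟨k, hk⟩ := exists_index hR x
    have ho := fun j hj => hout j x (hsub j hx) (hk j hj)
    refine ⟨k, ?_, ?_, ?_, ?_⟩
    · have := tsum_split (a := fun j => w j x) hse he0 k (fun j hj => (ho j hj).1)
      rw [hte] at this
      exact this
    · have := tsum_split (a := fun j => W j x) hse he0 k (fun j hj => (ho j hj).2.1)
      rw [hte] at this
      exact ⟨this.1, this.2.2⟩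
    · intro i
      have := tsum_split (a := fun j => W j x i) hse he0 k
        (fun j hj => (PiLp.norm_apply_le (W j x) i).trans (ho j hj).2.1)
      rw [hte] at this
      exact ⟨this.1, this.2.1⟩
    · have := tsum_split (a := fun j => f j x) hse he0 k
        (fun j hj => by rw [(ho j hj).2.2, norm_zero]; exact he0 j)
      rw [hte] at this
      exact ⟨this.1, this.2.1, tsum_eq_single k fun j hj => (ho j hj).2.2⟩
  have hGi : ∀ x ∈ ball (0 : Pl) R, ∀ i, G x i = ∑' k, W k x i := by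
    intro x hx i
    obtain ⟨k, -, ⟨h1, -⟩, -⟩ := key x hx
    exact (EuclideanSpace.proj (𝕜 := ℝ) i).map_tsum h1.of_norm
  have hfabs : ∀ k x, ‖f k x‖ ≤ A k x := by
    intro k x
    have h1 := hfA k x
    have h2 := hWA k x
    have h3 := hA0 k x
    rw [Real.norm_eq_abs]
    apply abs_le_of_sq_le_sq' _ h3 |> fun h => abs_le.2 h
    nlinarith
  have hub : ∀ x ∈ ball (0 : Pl) R, ‖u x‖ ≤ 4 * R + 3 := by
    intro x hx
    obtain ⟨k, ⟨-, -, h1⟩, -⟩ := key x hx
    have h2 := hwb k x (hsub k hx)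
    have h3 := norm_add_le (u x - w k x) (w k x)
    rw [sub_add_cancel] at h3
    linarith
  have hGF : ∀ x ∈ ball (0 : Pl) R, ⟪G x, b x⟫_ℝ = F x ∧ ∃ k, ‖b x‖ ^ 2 ≤ 4 * A k x := by
    intro x hx
    obtain ⟨k, -, ⟨-, h1⟩, -, ⟨-, -, h2⟩⟩ := key x hx
    by_cases hF : F x = 0
    · have hb : b x = 0 := by simp [b, hF]
      refine ⟨by rw [hb, hF, inner_zero_right], k, ?_⟩
      rw [hb, norm_zero]
      have := hA0 k x
      nlinarith
    · have h3 := hfW k x (h2 ▸ hF)
      have h4 : ‖W k x‖ / 2 ≤ ‖G x‖ := by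
        have := norm_sub_norm_le (W k x) (G x)
        rw [norm_sub_rev] at this
        linarith
      have h5 : 0 < ‖G x‖ := by linarith
      refine ⟨?_, k, ?_⟩
      · simp only [b]
        rw [inner_smul_right, real_inner_self_eq_norm_sq]
        field_simp
      · have e : ‖b x‖ ^ 2 = F x ^ 2 / ‖G x‖ ^ 2 := by
          simp only [b]
          rw [norm_smul, mul_pow, Real.norm_eq_abs, sq_abs]
          field_simp
        rw [e, div_le_iff₀ (by positivity), h2]
        have h6 := hfA k x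
        have h7 := hA0 k x
        have h8 : ‖W k x‖ ^ 2 ≤ 4 * ‖G x‖ ^ 2 := by nlinarith [norm_nonneg (W k x)]
        nlinarith
  -- summability a.e. and integrability of the majorants
  have sw : ∀ᵐ x ∂μ, Summable fun k => ‖w k x‖ := by
    filter_upwards [hae] with x hx
    obtain ⟨k, ⟨h1, -⟩, -⟩ := key x hx
    exact h1
  have sW : ∀ i, ∀ᵐ x ∂μ, Summable fun k => ‖W k x i‖ := by
    intro i
    filter_upwards [hae] with x hx
    obtain ⟨k, -, -, h1, -⟩ := key x hx
    exact (h1 i).1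
  have sf : ∀ᵐ x ∂μ, Summable fun k => ‖f k x‖ := by
    filter_upwards [hae] with x hx
    obtain ⟨k, -, -, -, h1, -⟩ := key x hx
    exact h1
  have iw : Integrable (fun x => ∑' k, ‖w k x‖) μ := by
    refine integrable_of_le_add hse hA0 hAi' hAle'
      (Measurable.tsum fun k => (mw k).norm).aestronglyMeasurable (C := 4 * R + 3) ?_
    filter_upwards [hae] with x hx
    obtain ⟨k, ⟨-, h1, -⟩, -⟩ := key x hx
    refine ⟨k, ?_⟩
    rw [Real.norm_of_nonneg (tsum_nonneg fun _ => norm_nonneg _)]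
    have h2 := hwb k x (hsub k hx)
    have := hA0 k x
    linarith
  have iW : ∀ i, Integrable (fun x => ∑' k, ‖W k x i‖) μ := by
    intro i
    refine integrable_of_le_add hse hA0 hAi' hAle'
      (Measurable.tsum fun k => (measurable_coord (mW k) i).norm).aestronglyMeasurable
      (C := 2) ?_
    filter_upwards [hae] with x hx
    obtain ⟨k, -, -, h1, -⟩ := key x hx
    refine ⟨k, ?_⟩
    rw [Real.norm_of_nonneg (tsum_nonneg fun _ => norm_nonneg _)]
    have h2 := (h1 i).2
    have h3 := PiLp.norm_apply_le (W k x) i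
    have h4 := hWA k x
    nlinarith [sq_nonneg (‖W k x‖ - 1)]
  have jf : Integrable (fun x => ∑' k, ‖f k x‖) μ := by
    refine integrable_of_le_add hse hA0 hAi' hAle'
      (Measurable.tsum fun k => (mf k).norm).aestronglyMeasurable (C := 1) ?_
    filter_upwards [hae] with x hx
    obtain ⟨k, -, -, -, -, h1, -⟩ := key x hx
    refine ⟨k, ?_⟩
    rw [Real.norm_of_nonneg (tsum_nonneg fun _ => norm_nonneg _)]
    have h2 := hfabs k x
    linarith
  have hutop : MemLp u ⊤ μ := by
    refine memLp_top_of_bound mu.aestronglyMeasurable (4 * R + 3) ?_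
    filter_upwards [hae] with x hx using hub x hx
  -- test function preliminaries
  have test : ∀ h : Pl → ℝ, ContDiff ℝ ∞ h → HasCompactSupport h → tsupport h ⊆ ball 0 R →
      (∃ C, ∀ x, ‖h x‖ ≤ C) ∧ (∀ i, ∃ C, ∀ x, ‖fderiv ℝ h x (ee i)‖ ≤ C) ∧
      (∀ i, Continuous fun x => fderiv ℝ h x (ee i)) ∧ ContDiff ℝ 1 h := by
    intro h hh hc _
    have h1 : ContDiff ℝ 1 h := hh.of_le (by exact_mod_cast le_top)
    have hcd : ∀ i, Continuous fun x => fderiv ℝ h x (ee i) := fun i =>
      (h1.continuous_fderiv one_ne_zero).clm_apply continuous_const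
    exact ⟨hh.continuous.bounded_above_of_compact_support hc,
      fun i => (hcd i).bounded_above_of_compact_support (hc.fderiv_apply (𝕜 := ℝ) (ee i)),
      hcd, h1⟩
  refine ⟨b, u, G, mb, ?_, hutop.mono_exponent le_top, ?_, ?_, hutop, ?_, ?_⟩
  · rw [memLp_two_iff_integrable_sq_norm mb.aestronglyMeasurable]
    refine integrable_of_le_add (A := fun k x => 4 * A k x) (hse.mul_left 4)
      (fun k x => by have := hA0 k x; positivity) (fun k => (hAi' k).const_mul 4)
      (fun k => by rw [integral_const_mul]; have := hAle' k; linarith)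
      (mb.norm.pow_const 2).aestronglyMeasurable (C := 0) ?_
    filter_upwards [hae] with x hx
    obtain ⟨k, hk⟩ := (hGF x hx).2
    exact ⟨k, by rw [Real.norm_of_nonneg (by positivity), zero_add]; exact hk⟩
  · rw [memLp_two_iff_integrable_sq_norm mG.aestronglyMeasurable]
    refine integrable_of_le_add (A := fun k x => 2 * A k x) (hse.mul_left 2)
      (fun k x => by have := hA0 k x; positivity) (fun k => (hAi' k).const_mul 2)
      (fun k => by rw [integral_const_mul]; have := hAle' k; linarith)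
      (mG.norm.pow_const 2).aestronglyMeasurable (C := 1) ?_
    filter_upwards [hae] with x hx
    obtain ⟨k, -, ⟨-, h1⟩, -⟩ := key x hx
    refine ⟨k, ?_⟩
    rw [Real.norm_of_nonneg (by positivity)]
    have h3 := norm_add_le (G x - W k x) (W k x)
    rw [sub_add_cancel] at h3
    have h4 := hWA k x
    have h5 : ‖G x‖ ^ 2 ≤ (1 / 4 + ‖W k x‖) ^ 2 :=
      pow_le_pow_left₀ (norm_nonneg _) (by linarith) 2
    nlinarith [sq_nonneg (‖W k x‖ - 1 / 4)]
  · intro h hh hc hs i
    obtain ⟨⟨C0, hC0⟩, hC1, hcd, h1⟩ := test h hh hc hs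
    obtain ⟨C1, hC1⟩ := hC1 i
    have a1 := (hasSum_integral_mul mw sw iw (hcd i).aestronglyMeasurable hC1).2
    have a2 := (hasSum_integral_mul (a := fun k x => W k x i)
      (fun k => measurable_coord (mW k) i) (sW i) (iW i)
      hh.continuous.aestronglyMeasurable hC0).2
    have e1 : ∀ k, ∫ x, w k x * fderiv ℝ h x (ee i) ∂μ = - ∫ x, W k x i * h x ∂μ := by
      intro k
      rw [hμ, setIntegral_test hs (tsupport_fderiv_apply_subset ℝ (ee i)),
        setIntegral_test hs subset_rfl]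
      exact (hibp k h h1 hc (hs.trans (hsub k))).1 i
    simp only [e1] at a1
    have e2 := a1.unique a2.neg
    have e3 : ∫ x, G x i * h x ∂μ = ∫ x, (∑' k, W k x i) * h x ∂μ := by
      apply integral_congr_ae
      filter_upwards [hae] with x hx
      rw [hGi x hx i]
    rw [e3]
    exact e2
  · intro h hh hc hs
    obtain ⟨⟨C0, hC0⟩, hC1, hcd, h1⟩ := test h hh hc hs
    choose C1 hC1 using hC1
    have a1 := fun i => hasSum_integral_mul (a := fun k x => W k x i)
      (fun k => measurable_coord (mW k) i) (sW i) (iW i) (hcd i).aestronglyMeasurable (hC1 i)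
    have a2 := hasSum_integral_mul mf sf jf hh.continuous.aestronglyMeasurable hC0
    have e1 : ∀ k, ∫ x, W k x 0 * fderiv ℝ h x (ee 0) ∂μ + ∫ x, W k x 1 * fderiv ℝ h x (ee 1) ∂μ
        + ∫ x, f k x * h x ∂μ = 0 := by
      intro k
      rw [hμ, setIntegral_test hs (tsupport_fderiv_apply_subset ℝ (ee 0)),
        setIntegral_test hs (tsupport_fderiv_apply_subset ℝ (ee 1)),
        setIntegral_test hs subset_rfl]
      have := (hibp k h h1 hc (hs.trans (hsub k))).2
      rw [Fin.sum_univ_two] at this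
      linarith
    have a3 := ((a1 0).2.add (a1 1).2).add a2.2
    simp only [e1] at a3
    have e2 := a3.unique hasSum_zero
    have i01 : Integrable (fun x => (∑' k, W k x 0) * fderiv ℝ h x (ee 0)
        + (∑' k, W k x 1) * fderiv ℝ h x (ee 1)) μ := (a1 0).1.add (a1 1).1
    rw [← integral_add (a1 0).1 (a1 1).1, ← integral_add i01 a2.1] at e2
    rw [← e2]
    apply integral_congr_ae
    filter_upwards [hae] with x hx
    rw [inner_add_right, inner_smul_right, (hGF x hx).1, inner_gradient_eq, hGi x hx 0,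
      hGi x hx 1]
    simp only [F]
    ring
  · rintro ⟨v, hv, huv⟩
    have huv' : ∀ᵐ x : Pl, x ∈ ball (0 : Pl) R → u x = v x :=
      (ae_restrict_iff' measurableSet_ball).1 huv
    have hv0 : ContinuousAt v 0 := hv.continuousAt (ball_mem_nhds 0 hR)
    obtain ⟨δ, hδ, hδv⟩ := Metric.continuousAt_iff.1 hv0 (1 / 8) (by norm_num)
    obtain ⟨k, hk⟩ : ∃ k : ℕ, R / 2 ^ (k + 1) < δ := by
      obtain ⟨n, hn⟩ := pow_unbounded_of_one_lt (R / δ) (by norm_num : (1 : ℝ) < 2)
      refine ⟨n, ?_⟩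
      rw [div_lt_iff₀ hδ] at hn
      rw [div_lt_iff₀ (by positivity), pow_succ]
      have : 0 < 2 ^ n * δ := by positivity
      nlinarith
    obtain ⟨r, hr, hbig⟩ := hbig k
    have hck : ctr R k ∈ ball (0 : Pl) R := by
      rw [mem_ball_zero_iff, norm_ctr hR]
      exact div_lt_self hR (one_lt_pow₀ (by norm_num) (by omega))
    have hne : ∀ᵐ x : Pl, x ≠ ctr R k := by
      have : (volume : Measure Pl) {ctr R k} = 0 := by simp
      exact compl_mem_ae_iff.2 this
    obtain ⟨x, ⟨⟨⟨hx1, hx2⟩, hx3⟩, hx4⟩, hx5, hx6⟩ := exists_mem_of_ae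
      (U := ball (0 : Pl) R ∩ ball 0 δ ∩ ball (ctr R k) r ∩ ball (ctr R k) (rad R k))
      (((isOpen_ball.inter isOpen_ball).inter isOpen_ball).inter isOpen_ball)
      ⟨ctr R k, ⟨⟨hck, by rw [mem_ball_zero_iff, norm_ctr hR]; exact hk⟩, mem_ball_self hr⟩,
        mem_ball_self (hrad k)⟩ (huv'.and hne)
    have hopen : IsOpen {y : Pl | y 0 < 0} :=
      isOpen_lt (EuclideanSpace.proj (𝕜 := ℝ) (0 : Fin 2)).continuous continuous_const
    obtain ⟨y, ⟨⟨hy1, hy2⟩, hy3⟩, hy4⟩ := exists_mem_of_ae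
      (U := ball (0 : Pl) R ∩ ball 0 δ ∩ {y : Pl | y 0 < 0})
      ((isOpen_ball.inter isOpen_ball).inter hopen)
      ⟨-ctr R k, ⟨by rw [mem_ball_zero_iff, norm_neg, ← mem_ball_zero_iff]; exact hck,
        by rw [mem_ball_zero_iff, norm_neg, norm_ctr hR]; exact hk⟩, by
          simp only [ctr, mem_ofPred_eq, PiLp.neg_apply, PiLp.single_eq_same, Left.neg_neg_iff]
          positivity⟩ huv'
    have hux : 1 / 2 ≤ u x := by
      have ho : ∀ j, j ≠ k → ‖w j x‖ ≤ eta j := by
        intro j hj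
        refine (hout j x (hsub j hx1) fun hxj => ?_).1
        rcases lt_or_gt_of_ne hj with h1 | h1
        · exact Set.disjoint_left.1 (disc_disjoint_lt hR h1) hxj hx4
        · exact Set.disjoint_left.1 (disc_disjoint_lt hR h1) hx4 hxj
      have h1 := (tsum_split (a := fun j => w j x) hse he0 k ho).2.2
      rw [hte, Real.norm_eq_abs] at h1
      have h2 := hbig x hx3 hx6
      have h3 := neg_abs_le (∑' j, w j x - w k x)
      simp only [u]
      linarith
    have huy : u y ≤ 1 / 4 := by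
      have h1 := tsum_of_norm_bounded (f := fun j => w j y) hasSum_eta
        (fun j => (hout j y (hsub j hy1) (not_mem_disc hR hy3 j)).1)
      exact (le_abs_self _).trans h1
    have d1 := hδv (x := x) hx2
    have d2 := hδv (x := y) hy2
    rw [Real.dist_eq, abs_lt] at d1 d2
    rw [hx5 hx1] at hux
    rw [hy4 hy1] at huy
    linarith [d1.1, d1.2, d2.1, d2.2]

end Pool.Agent.Lib.MP_89b2fa_an
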