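import Pool.Agent.Lib.MP_89b2fa_an.Basic

set_option autoImplicit false

open MeasureTheory Measure Metric Set Filter Topology Module

namespace Pool.Agent.Lib.MP_89b2fa_an

noncomputable def tau (ε a L : ℝ) : ℝ := max (ε * (L - a)) 0

noncomputable def gg (ε a L : ℝ) : ℝ := ε * L - (tau ε a L - Real.arctan (tau ε a L))

noncomputable def ph (ε a L : ℝ) : ℝ := ε / (1 + tau ε a L ^ 2)

noncomputable def ps (ε a L : ℝ) : ℝ := -(2 * ε ^ 2 * tau ε a L) / (1 + tau ε a L ^ 2) ^ 2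

lemma tau_nonneg (ε a L : ℝ) : 0 ≤ tau ε a L := le_max_right _ _

lemma hasDerivAt_gg (ε a L : ℝ) : HasDerivAt (gg ε a) (ph ε a L) L := by
  have h1 : ∀ t : ℝ, HasDerivAt (fun t => t - Real.arctan t) (1 - 1 / (1 + t ^ 2)) t :=
    fun t => (hasDerivAt_id t).sub (Real.hasDerivAt_arctan t)
  have h2 := hasDerivAt_comp_max h1 (by simp) (ε * (L - a))
  have h3 : HasDerivAt (fun L : ℝ => ε * (L - a)) ε L := by
    simpa using ((hasDerivAt_id L).sub_const a).const_mul ε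
  have h4 := h2.comp L h3
  have h5 : HasDerivAt (fun L : ℝ => ε * L) ε L := by
    simpa using (hasDerivAt_id L).const_mul ε
  have h6 := h5.sub h4
  have e : ε - (1 - 1 / (1 + (max (ε * (L - a)) 0) ^ 2)) * ε = ph ε a L := by
    unfold ph tau
    have : 0 < 1 + (max (ε * (L - a)) 0) ^ 2 := by positivity
    field_simp
    ring
  rw [e] at h6
  exact h6

lemma hasDerivAt_ph (ε a L : ℝ) : HasDerivAt (ph ε a) (ps ε a L) L := by
  have h1 : ∀ t : ℝ, HasDerivAt (fun t => ε / (1 + t ^ 2)) (-(ε * (2 * t)) / (1 + t ^ 2) ^ 2) t := by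
    intro t
    have h0 : HasDerivAt (fun t : ℝ => 1 + t ^ 2) (2 * t) t := by
      simpa using (hasDerivAt_pow 2 t).const_add 1
    have hp : (1 + t ^ 2) ≠ 0 := by positivity
    have := (hasDerivAt_const t ε).fun_div h0 hp
    simpa using this
  have h2 := hasDerivAt_comp_max h1 (by simp) (ε * (L - a))
  have h3 : HasDerivAt (fun L : ℝ => ε * (L - a)) ε L := by
    simpa using ((hasDerivAt_id L).sub_const a).const_mul ε
  have h4 := h2.comp L h3
  have e : -(ε * (2 * max (ε * (L - a)) 0)) / (1 + (max (ε * (L - a)) 0) ^ 2) ^ 2 * ε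
      = ps ε a L := by
    unfold ps tau
    ring
  rw [e] at h4
  exact h4

lemma continuous_tau (ε a : ℝ) : Continuous (tau ε a) := by
  unfold tau; fun_prop

lemma continuous_gg (ε a : ℝ) : Continuous (gg ε a) :=
  continuous_iff_continuousAt.2 fun L => (hasDerivAt_gg ε a L).continuousAt

lemma continuous_ph (ε a : ℝ) : Continuous (ph ε a) :=
  continuous_iff_continuousAt.2 fun L => (hasDerivAt_ph ε a L).continuousAt

lemma continuous_ps (ε a : ℝ) : Continuous (ps ε a) := by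
  unfold ps
  have := continuous_tau ε a
  refine Continuous.div (by fun_prop) (by fun_prop) fun L => by positivity

lemma ph_pos {ε : ℝ} (hε : 0 < ε) (a L : ℝ) : 0 < ph ε a L := by
  unfold ph; positivity

lemma ph_le {ε : ℝ} (hε : 0 < ε) (a L : ℝ) : ph ε a L ≤ ε := by
  unfold ph
  apply div_le_self hε.le
  nlinarith [sq_nonneg (tau ε a L)]

lemma abs_ps_le {ε : ℝ} (hε : 0 < ε) (a L : ℝ) : |ps ε a L| ≤ ε * ph ε a L := by
  unfold ps ph
  have ht := tau_nonneg ε a L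
  set t := tau ε a L
  have hp : 0 < 1 + t ^ 2 := by positivity
  rw [abs_div, abs_neg, abs_of_nonneg (by positivity), abs_of_pos (by positivity),
    div_le_iff₀ (by positivity)]
  have : ε * (ε / (1 + t ^ 2)) * (1 + t ^ 2) ^ 2 = ε ^ 2 * (1 + t ^ 2) := by
    field_simp
  rw [this]
  have : 2 * t ≤ 1 + t ^ 2 := by nlinarith [sq_nonneg (t - 1)]
  nlinarith [sq_nonneg ε]

lemma ps_sq_le {ε : ℝ} (hε : 0 < ε) (a L : ℝ) : ps ε a L ^ 2 ≤ 4 * ε * ph ε a L ^ 3 := by
  unfold ps ph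
  set t := tau ε a L
  have hp : 0 < 1 + t ^ 2 := by positivity
  rw [div_pow, div_le_iff₀ (by positivity)]
  have : 4 * ε * (ε / (1 + t ^ 2)) ^ 3 * ((1 + t ^ 2) ^ 2) ^ 2 = 4 * ε ^ 4 * (1 + t ^ 2) := by
    field_simp
  rw [this]
  have : 0 ≤ ε ^ 4 := by positivity
  nlinarith

lemma tau_of_le {ε a L : ℝ} (hε : 0 < ε) (h : L ≤ a) : tau ε a L = 0 := by
  unfold tau
  apply max_eq_right
  nlinarith

lemma tau_of_ge {ε a L : ℝ} (hε : 0 < ε) (h : a ≤ L) : tau ε a L = ε * (L - a) := by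
  unfold tau
  apply max_eq_left
  nlinarith

lemma gg_of_le {ε a L : ℝ} (hε : 0 < ε) (h : L ≤ a) : gg ε a L = ε * L := by
  unfold gg; rw [tau_of_le hε h]; simp

lemma ph_of_le {ε a L : ℝ} (hε : 0 < ε) (h : L ≤ a) : ph ε a L = ε := by
  unfold ph; rw [tau_of_le hε h]; simp

lemma ps_of_le {ε a L : ℝ} (hε : 0 < ε) (h : L ≤ a) : ps ε a L = 0 := by
  unfold ps; rw [tau_of_le hε h]; simp

lemma gg_of_ge {ε a L : ℝ} (hε : 0 < ε) (h : a ≤ L) :
    gg ε a L = ε * a + Real.arctan (ε * (L - a)) := by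
  unfold gg; rw [tau_of_ge hε h]; ring

lemma gg_bounds {ε a L : ℝ} (hε : 0 < ε) (ha : 0 ≤ a) (hL : 0 ≤ L) :
    0 ≤ gg ε a L ∧ gg ε a L ≤ ε * a + 2 := by
  rcases le_total L a with h | h
  · rw [gg_of_le hε h]
    constructor
    · positivity
    · nlinarith
  · rw [gg_of_ge hε h]
    have h1 : 0 ≤ Real.arctan (ε * (L - a)) := Real.arctan_nonneg.2 (by nlinarith)
    have h2 := Real.arctan_lt_pi_div_two (ε * (L - a))
    have h3 := Real.pi_le_four
    constructor
    · positivity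
    · linarith

lemma gg_large {ε a L : ℝ} (hε : 0 < ε) (ha : 0 ≤ a) (hL : a + 1 / ε ≤ L) :
    3 / 4 ≤ gg ε a L := by
  have h0 : 0 < 1 / ε := by positivity
  rw [gg_of_ge hε (by linarith)]
  have h1 : 1 ≤ ε * (L - a) := by
    have : 1 / ε ≤ L - a := by linarith
    rw [div_le_iff₀ hε] at this
    linarith
  have h2 : Real.arctan 1 ≤ Real.arctan (ε * (L - a)) := Real.arctan_strictMono.monotone h1
  rw [Real.arctan_one] at h2
  have h3 := Real.pi_gt_three
  have : 0 ≤ ε * a := by positivity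
  linarith

lemma tendsto_gg {ε : ℝ} (hε : 0 < ε) (a : ℝ) :
    Tendsto (gg ε a) atTop (𝓝 (ε * a + Real.pi / 2)) := by
  have h1 : Tendsto (fun L : ℝ => ε * (L - a)) atTop atTop :=
    Tendsto.const_mul_atTop hε (tendsto_atTop_add_const_right _ (-a) tendsto_id)
  have h2 : Tendsto (fun L : ℝ => Real.arctan (ε * (L - a))) atTop (𝓝 (Real.pi / 2)) :=
    (Real.tendsto_arctan_atTop.mono_right nhdsWithin_le_nhds).comp h1
  refine (h2.const_add (ε * a)).congr' ?_
  filter_upwards [Ici_mem_atTop a] with L hL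
  rw [gg_of_ge hε hL]

lemma ph_integrable {ε : ℝ} (hε : 0 < ε) (a : ℝ) : IntegrableOn (ph ε a) (Ioi 0) :=
  integrableOn_Ioi_deriv_of_nonneg' (fun L _ => hasDerivAt_gg ε a L)
    (fun L _ => (ph_pos hε a L).le) (tendsto_gg hε a)

lemma ph_integral_le {ε a : ℝ} (hε : 0 < ε) (ha : 0 ≤ a) :
    ∫ L in Ioi 0, ph ε a L ≤ ε * a + 2 := by
  rw [integral_Ioi_of_hasDerivAt_of_nonneg' (fun L _ => hasDerivAt_gg ε a L)
    (fun L _ => (ph_pos hε a L).le) (tendsto_gg hε a), gg_of_le hε ha]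
  have := Real.pi_le_four
  linarith

lemma ph_exp_ge {ε a L : ℝ} (hε : 0 < ε) (hε2 : ε ≤ 1 / 2) (h : a ≤ L) :
    ε * Real.exp a ≤ ph ε a L * Real.exp L := by
  unfold ph
  rw [tau_of_ge hε h]
  have hs : 0 ≤ L - a := by linarith
  have h1 := Real.quadratic_le_exp_of_nonneg hs
  have h2 : 1 + (ε * (L - a)) ^ 2 ≤ Real.exp (L - a) := by
    have : ε ^ 2 ≤ 1 / 2 := by nlinarith
    have : (ε * (L - a)) ^ 2 ≤ (L - a) ^ 2 / 2 := by
      rw [mul_pow]; nlinarith [sq_nonneg (L - a)]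
    linarith
  have h3 : Real.exp L = Real.exp a * Real.exp (L - a) := by
    rw [← Real.exp_add]; congr 1; ring
  rw [h3, div_mul_eq_mul_div, le_div_iff₀ (by positivity)]
  have h4 : 0 < ε * Real.exp a := by positivity
  nlinarith

end Pool.Agent.Lib.MP_89b2fa_an
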