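import Pool.Agent.Lib.MP_89b2fa_an.Bump

set_option autoImplicit false

open MeasureTheory Measure Metric Set Filter Topology Module
open scoped InnerProductSpace ENNReal

namespace Pool.Agent.Lib.MP_89b2fa_an

lemma integrable_of_le_add {X : Type*} [MeasurableSpace X] {μ : Measure X} [IsFiniteMeasure μ]
    {A : ℕ → X → ℝ} {η : ℕ → ℝ} (hη : Summable η) (hA0 : ∀ k x, 0 ≤ A k x)
    (hA : ∀ k, Integrable (A k) μ) (hAi : ∀ k, ∫ x, A k x ∂μ ≤ η k) {T : X → ℝ}
    (hT : AEStronglyMeasurable T μ) {C : ℝ}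
    (hle : ∀ᵐ x ∂μ, ∃ k, ‖T x‖ ≤ C + A k x) : Integrable T μ := by
  refine ⟨hT, ?_⟩
  have hη0 : ∀ k, 0 ≤ η k := fun k => (integral_nonneg (hA0 k)).trans (hAi k)
  have h1 : ∫⁻ x, ‖T x‖ₑ ∂μ ≤
      ∫⁻ x, (ENNReal.ofReal C + ∑' k, ENNReal.ofReal (A k x)) ∂μ := by
    apply lintegral_mono_ae
    filter_upwards [hle] with x hx
    obtain ⟨k, hk⟩ := hx
    calc ‖T x‖ₑ = ENNReal.ofReal ‖T x‖ := (ofReal_norm _).symm
      _ ≤ ENNReal.ofReal (C + A k x) := ENNReal.ofReal_le_ofReal hk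
      _ ≤ ENNReal.ofReal C + ENNReal.ofReal (A k x) := ENNReal.ofReal_add_le
      _ ≤ _ := by gcongr; exact ENNReal.le_tsum (f := fun k => ENNReal.ofReal (A k x)) k
  have h2 : ∫⁻ x, (∑' k, ENNReal.ofReal (A k x)) ∂μ ≤ ENNReal.ofReal (∑' k, η k) := by
    rw [lintegral_tsum (fun k => (hA k).aemeasurable.ennreal_ofReal),
      ENNReal.ofReal_tsum_of_nonneg hη0 hη]
    refine ENNReal.tsum_le_tsum fun k => ?_
    rw [← ofReal_integral_eq_lintegral_ofReal (hA k) (ae_of_all _ (hA0 k))]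
    exact ENNReal.ofReal_le_ofReal (hAi k)
  rw [lintegral_add_left measurable_const, lintegral_const] at h1
  refine h1.trans_lt (ENNReal.add_lt_top.2 ⟨?_, h2.trans_lt ENNReal.ofReal_lt_top⟩)
  exact ENNReal.mul_lt_top ENNReal.ofReal_lt_top (measure_lt_top _ _)

lemma tsum_split {V : Type*} [NormedAddCommGroup V] [CompleteSpace V] {a : ℕ → V} {η : ℕ → ℝ}
    (hη : Summable η) (hη0 : ∀ j, 0 ≤ η j) (k : ℕ) (h : ∀ j, j ≠ k → ‖a j‖ ≤ η j) :
    Summable (fun j => ‖a j‖) ∧ ∑' j, ‖a j‖ ≤ ‖a k‖ + ∑' j, η j ∧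
      ‖∑' j, a j - a k‖ ≤ ∑' j, η j := by
  classical
  have hs : Summable (fun j => ‖a j‖) := by
    refine Summable.of_norm_bounded_eventually hη ?_
    have : ∀ᶠ j in cofinite, j ≠ k := eventually_cofinite_ne k
    filter_upwards [this] with j hj
    simpa using h j hj
  have hb : ∀ j, ‖(if j = k then 0 else a j)‖ ≤ η j := by
    intro j
    split_ifs with hj
    · simpa using hη0 j
    · exact h j hj
  have hb' : ∀ j, ‖(if j = k then 0 else ‖a j‖)‖ ≤ η j := by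
    intro j
    split_ifs with hj
    · simpa using hη0 j
    · simpa using h j hj
  refine ⟨hs, ?_, ?_⟩
  · rw [hs.tsum_eq_add_tsum_ite k]
    have := tsum_of_norm_bounded hη.hasSum hb'
    have h2 := le_abs_self (∑' j, (if j = k then 0 else ‖a j‖))
    rw [Real.norm_eq_abs] at this
    linarith
  · rw [hs.of_norm.tsum_eq_add_tsum_ite k, add_sub_cancel_left]
    exact tsum_of_norm_bounded hη.hasSum hb

lemma hasSum_integral_mul {X : Type*} [MeasurableSpace X] {μ : Measure X} {a : ℕ → X → ℝ}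
    (ha : ∀ k, Measurable (a k)) (hs : ∀ᵐ x ∂μ, Summable fun k => ‖a k x‖)
    (hi : Integrable (fun x => ∑' k, ‖a k x‖) μ) {m : X → ℝ} (hm : AEStronglyMeasurable m μ)
    {C : ℝ} (hC : ∀ x, ‖m x‖ ≤ C) :
    Integrable (fun x => (∑' k, a k x) * m x) μ ∧
    HasSum (fun k => ∫ x, a k x * m x ∂μ) (∫ x, (∑' k, a k x) * m x ∂μ) := by
  constructor
  · refine Integrable.mul_bdd ?_ hm (ae_of_all _ hC)
    refine hi.mono' (Measurable.tsum ha).aestronglyMeasurable ?_
    filter_upwards [hs] with x hx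
    exact norm_tsum_le_tsum_norm hx
  · refine hasSum_integral_of_dominated_convergence (fun k x => ‖a k x‖ * C)
      (fun k => (ha k).aestronglyMeasurable.mul hm) (fun k => ae_of_all _ fun x => ?_) ?_ ?_ ?_
    · rw [norm_mul]
      exact mul_le_mul_of_nonneg_left (hC x) (norm_nonneg _)
    · filter_upwards [hs] with x hx
      exact hx.mul_right C
    · simp only [tsum_mul_right]
      exact hi.mul_const C
    · filter_upwards [hs] with x hx
      exact hx.of_norm.hasSum.mul_right (m x)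

/-- centres of the bumps -/
noncomputable def ctr (R : ℝ) (k : ℕ) : Pl := EuclideanSpace.single 0 (R / 2 ^ (k + 1))

/-- radii of the disjoint discs -/
noncomputable def rad (R : ℝ) (k : ℕ) : ℝ := R / 2 ^ (k + 3)

noncomputable def eta (k : ℕ) : ℝ := 1 / 8 * (1 / 2) ^ k

lemma eta_pos (k : ℕ) : 0 < eta k := by unfold eta; positivity

lemma hasSum_eta : HasSum eta (1 / 4) := by
  have := hasSum_geometric_two.mul_left (1 / 8)
  norm_num at this ⊢
  unfold eta
  exact this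

lemma norm_ctr {R : ℝ} (hR : 0 < R) (k : ℕ) : ‖ctr R k‖ = R / 2 ^ (k + 1) := by
  unfold ctr
  rw [PiLp.norm_single, Real.norm_of_nonneg (by positivity)]

lemma ball_subset {R : ℝ} (hR : 0 < R) (k : ℕ) : ball (0 : Pl) R ⊆ ball (ctr R k) (2 * R) := by
  intro x hx
  rw [mem_ball, dist_eq_norm] at hx ⊢
  rw [sub_zero] at hx
  have h1 := norm_sub_le x (ctr R k)
  rw [norm_ctr hR] at h1
  have h2 : R / 2 ^ (k + 1) ≤ R := div_le_self hR.le (one_le_pow₀ (by norm_num))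
  linarith

lemma disc_disjoint_lt {R : ℝ} (hR : 0 < R) {j k : ℕ} (h : j < k) :
    Disjoint (ball (ctr R j) (rad R j)) (ball (ctr R k) (rad R k)) := by
  apply ball_disjoint_ball
  have h1 : R / 2 ^ (j + 1) - R / 2 ^ (k + 1) ≤ dist (ctr R j) (ctr R k) := by
    rw [← norm_ctr hR, ← norm_ctr hR, dist_eq_norm]
    exact norm_sub_norm_le _ _
  have h2 : R / 2 ^ (k + 1) ≤ R / 2 ^ (j + 2) :=
    div_le_div_of_nonneg_left hR.le (by positivity) (pow_le_pow_right₀ (by norm_num) (by omega))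
  have h3 : R / 2 ^ (k + 3) ≤ R / 2 ^ (j + 3) :=
    div_le_div_of_nonneg_left hR.le (by positivity) (pow_le_pow_right₀ (by norm_num) (by omega))
  unfold rad
  have e1 : R / 2 ^ (j + 1) = 4 * (R / 2 ^ (j + 3)) := by field_simp; ring
  have e2 : R / 2 ^ (j + 2) = 2 * (R / 2 ^ (j + 3)) := by field_simp; ring
  linarith

lemma exists_index {R : ℝ} (hR : 0 < R) (x : Pl) :
    ∃ k, ∀ j, j ≠ k → x ∉ ball (ctr R j) (rad R j) := by
  by_cases h : ∃ k, x ∈ ball (ctr R k) (rad R k)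
  · obtain ⟨k, hk⟩ := h
    refine ⟨k, fun j hj hx => ?_⟩
    rcases lt_or_gt_of_ne hj with h1 | h1
    · exact Set.disjoint_left.1 (disc_disjoint_lt hR h1) hx hk
    · exact Set.disjoint_left.1 (disc_disjoint_lt hR h1) hk hx
  · push Not at h
    exact ⟨0, fun j _ => h j⟩

lemma not_mem_disc {R : ℝ} (hR : 0 < R) {x : Pl} (hx : x 0 < 0) (k : ℕ) :
    x ∉ ball (ctr R k) (rad R k) := by
  intro h
  rw [mem_ball, dist_eq_norm] at h
  have h1 := PiLp.norm_apply_le (x - ctr R k) 0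
  have h2 : (x - ctr R k) 0 = x 0 - R / 2 ^ (k + 1) := by simp [ctr]
  rw [h2, Real.norm_eq_abs] at h1
  have h3 := neg_abs_le (x 0 - R / 2 ^ (k + 1))
  have h4 := neg_le_abs (x 0 - R / 2 ^ (k + 1))
  unfold rad at h
  have e1 : R / 2 ^ (k + 1) = 4 * (R / 2 ^ (k + 3)) := by field_simp; ring
  have : 0 < R / 2 ^ (k + 3) := by positivity
  linarith

lemma exists_mem_of_ae {U : Set Pl} (hU : IsOpen U) (hne : U.Nonempty) {P : Pl → Prop}
    (hP : ∀ᵐ x, P x) : ∃ x ∈ U, P x :=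
  (Measure.dense_of_ae hP).inter_open_nonempty U hU hne

end Pool.Agent.Lib.MP_89b2fa_an
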